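import Pool.Agent.V1153.UR.Spl

/-!
# Varieties with a Zariski-dense family of points given by iterated recurrences

Let `X` be an integral projective variety over the complex numbers, for instance `X_ℂ` for a variety
over a number field. We suppose that `X` is potentially dense by points given by iterated
recurrences: there are a group `H` and a family `x(h)`, `h ∈ H`, of points of `X` (for instance, over a
number field) given by iterated recurrences of some type `(s, r, e)` (`IterVec`), which is
Zariski-dense in `X` (`DenseIn`).

Then all projective varieties `Y` of positive dimension (`PosDim`) which are dominated by `X`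
(`DomRat`) are uniruled (`Uniruled`), and all pluricanonical forms on their smooth projective models
vanish (`Pluricanonical`, by forms on the function field). More precisely, if `Y` is not uniruled and
`X` is arbitrary, then for each type there are a proper closed subset `G = 0` of `X` and a number `B`
such that for all families of this type in `X`, the points outside of `G = 0` have at most `B`
different images in `Y` (`imgOff`).

Conversely, if `X` is unirational, dominated by a projective space by means of forms `g` with
coefficients in a field `L`, then the family `g(2^h, 3^h, 5^h, ...)`, `h ∈ ℤ`, of points of `X(L)` is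
Zariski-dense in `X`, and of type `(1, m + 1, e)` for some `e`.
-/

set_option autoImplicit false

namespace Pool.Agent.Results.MP_9410e4_ag.RecurrentDensity

open MvPolynomial Pool.Agent.V1153.UG Pool.Agent.V1153.UR
open Pool.Agent.TH143.GT (FunField Pluricanonical)
open Pool.Agent.Y377.ST (IterVec)

/-- Let `I` be a prime ideal, with the projective variety `X`. **(1)** If some family of points of `X`
given by iterated recurrences is Zariski-dense in `X`, then every integral projective variety `Y` of
positive dimension with a dominant rational map from `X` to `Y` is uniruled and has no nonzero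
pluricanonical forms. **(2)** If `Y` is not uniruled, then for each type `(s, r, e)` there are a form
`G` which does not vanish on `X` and a number `B` such that for all families of this type of points of
`X` the points outside of `G = 0` have at most `B` images in `Y`. **(3)** If there is a dominant
rational map from the projective space of dimension `m` to `X`, given by forms with coefficients in
the field `L`, then there is a Zariski-dense family of points of `X(L)` of type `(1, m + 1, e)`, for
some `e`, for the group of the integers. -/
theorem result {n : ℕ} (I : Ideal (MvPolynomial (Fin (n + 1)) ℂ)) (hI : I.IsPrime) :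
    ((∃ (s r e : ℕ) (H : Type) (_ : Group H) (x : H → Fin (n + 1) → ℂ),
        (∀ h, ∀ F ∈ I, (∃ d, F.IsHomogeneous d) → eval (x h) F = 0) ∧ IterVec s r e x ∧
          DenseIn I (Set.range x)) →
      ∀ (m : ℕ) (J : Ideal (MvPolynomial (Fin (m + 1)) ℂ))
        (g : Fin (m + 1) → MvPolynomial (Fin (n + 1)) ℂ) (δ : ℕ), J.IsPrime → DomRat I g δ J →
        PosDim J → Uniruled J ∧
          ∀ (K : Type) [Field K] [Algebra ℂ K] (w : ℕ) (y : Fin (m + 1) → K),
            FunField J 1 K w y → ∀ N, 0 < N → ∀ ω : (Fin w → Derivation ℂ K K) → K,
              Pluricanonical w N ω → ω = 0) ∧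
    (∀ (m : ℕ) (J : Ideal (MvPolynomial (Fin (m + 1)) ℂ))
      (g : Fin (m + 1) → MvPolynomial (Fin (n + 1)) ℂ) (δ : ℕ), J.IsPrime → DomRat I g δ J →
      ¬ Uniruled J → ∀ s r e : ℕ, ∃ (G : MvPolynomial (Fin (n + 1)) ℂ) (B : ℕ),
        (∃ d, G.IsHomogeneous d) ∧ G ∉ I ∧
        ∀ (H : Type) [Group H] (x : H → Fin (n + 1) → ℂ),
          (∀ h, ∀ F ∈ I, (∃ d, F.IsHomogeneous d) → eval (x h) F = 0) → IterVec s r e x →
            (imgOff g G x).encard ≤ (B : ℕ∞)) ∧
    ∀ (m : ℕ) (g : Fin (n + 1) → MvPolynomial (Fin (m + 1)) ℂ) (δ : ℕ), DomRat ⊥ g δ I →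
      ∀ L : Subfield ℂ, (∀ i u, coeff u (g i) ∈ L) →
        ∃ (e : ℕ) (x : Multiplicative ℤ → Fin (n + 1) → ℂ), (∀ h i, x h i ∈ L) ∧
          (∀ h, ∀ F ∈ I, (∃ d, F.IsHomogeneous d) → eval (x h) F = 0) ∧ IterVec 1 (m + 1) e x ∧
          DenseIn I (Set.range x) := by
  refine ⟨?_, fun m J g δ hJ hg hnu s r e => ?_, fun m g δ hg L hL => ?_⟩
  · rintro ⟨s, r, e, H, _, x, hx, hit, hS⟩ m J g δ hJ hg hd
    have hu : Uniruled J := image_of_rec hI hJ hg hd hx hit hS
    refine ⟨hu, fun K _ _ w y hy N hN ω hω => ?_⟩
    by_contra hω0
    exact not_ruled_of_form hy ⟨N, hN, ω, hω, hω0⟩ (uniruled_iff.2 hu)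
  · obtain ⟨G, B, h1, h2, -, h3⟩ := img_bound hI hJ
      (thin_of_not_ruled hJ (isHomogeneous_one _ _) fun h => hnu (uniruled_iff.1 h)) hg s r e
    exact ⟨G, B, h1, h2, h3⟩
  · obtain ⟨⟨e, he⟩, h2, h3⟩ := rec_of_unirational hg
    refine ⟨e, _, fun h i => ?_, h2, he, h3⟩
    rw [eval_eq']
    refine sum_mem fun u _ => mul_mem (hL i u) (prod_mem fun j _ => pow_mem ?_ _)
    exact zpow_mem (natCast_mem L _) _

end Pool.Agent.Results.MP_9410e4_ag.RecurrentDensity
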